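import Mathlib

/-!
# A non-admissible function that is five on two residue classes

The function equal to `5` for `d` congruent to `1` or `4` modulo `5` and to `60000 d` for all other
`d` is not admissible. The colouring of `x` depends on `x` modulo `5` and on the twelfth part of the
circle containing `√2 x`.
-/

namespace Pool.Agent.Results.MP_61dde8_co.FiveTerms

/-- The colouring `C` has a progression of colour `b`, difference `d` and `k` terms. -/
def HasAP (C : ℤ → Bool) (b : Bool) (d k : ℕ) : Prop :=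
  ∃ a : ℤ, ∀ i < k, C (a + i * d) = b

/-- The admissible functions of the problem. -/
def Admissible (f : ℕ → ℕ) : Prop :=
  ∀ C : ℤ → Bool, ∃ b : Bool, {d : ℕ | 1 ≤ d ∧ HasAP C b d (f d)}.Infinite

/-- colour masks of the five residue classes -/
def mask : ℕ → ℕ
  | 0 => 3967
  | 1 => 2504
  | 2 => 2
  | 3 => 3967
  | _ => 2

/-- colour of a residue class modulo 5 and a cell -/
def tab (r c : ℕ) : Bool := (mask r).testBit c

/-- the possible vectors of floors -/
def pats : List (ℕ × ℕ × ℕ × ℕ) :=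
  [(0, 0, 0, 0), (0, 0, 0, 1), (0, 0, 1, 1), (0, 1, 1, 1), (0, 1, 1, 2), (0, 1, 2, 2), (0, 1, 2, 3),
   (1, 1, 1, 1), (1, 1, 1, 2), (1, 1, 2, 2), (1, 1, 2, 3), (1, 2, 2, 3), (1, 2, 3, 3), (1, 2, 3, 4)]

def good (q r U V : ℕ) (m : ℕ × ℕ × ℕ × ℕ) : Bool :=
  let c0 := tab r (U % 12)
  let c1 := tab ((r + q) % 5) ((U + V + m.1) % 12)
  let c2 := tab ((r + 2 * q) % 5) ((U + 2 * V + m.2.1) % 12)
  let c3 := tab ((r + 3 * q) % 5) ((U + 3 * V + m.2.2.1) % 12)
  let c4 := tab ((r + 4 * q) % 5) ((U + 4 * V + m.2.2.2) % 12)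
  !((c0 == c1) && (c0 == c2) && (c0 == c3) && (c0 == c4))

def check : Bool :=
  [1, 4].all fun q => (List.range 5).all fun r => (List.range 12).all fun U =>
    (List.range 12).all fun V => pats.all fun m => good q r U V m

theorem check_eq : check = true := by
  decide +kernel

theorem good_of (q r U V : ℕ) (m : ℕ × ℕ × ℕ × ℕ) (hq : q = 1 ∨ q = 4) (hr : r < 5) (hU : U < 12)
    (hV : V < 12) (hm : m ∈ pats) : good q r U V m = true := by
  have h := check_eq
  unfold check at h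
  simp only [List.all_eq_true, List.mem_range] at h
  refine h q ?_ r hr U hU V hV m hm
  rcases hq with rfl | rfl <;> simp

/-- every class has both colours -/
theorem both (r : ℕ) (b : Bool) : ∃ c < 12, tab r c ≠ b := by
  have h : ∀ M ∈ [3967, 2504, 2], ∀ b : Bool, ∃ c < 12, Nat.testBit M c ≠ b := by decide
  have hM : mask r ∈ [3967, 2504, 2] := by
    unfold mask
    split <;> simp
  exact h _ hM b

/-- the floors of `s + j t` -/
theorem floors (s t : ℝ) (hs0 : 0 ≤ s) (hs1 : s < 1) (ht0 : 0 ≤ t) (ht1 : t < 1) :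
    ∃ m : ℕ × ℕ × ℕ × ℕ, m ∈ pats ∧ ⌊s + t⌋ = m.1 ∧ ⌊s + 2 * t⌋ = m.2.1 ∧
      ⌊s + 3 * t⌋ = m.2.2.1 ∧ ⌊s + 4 * t⌋ = m.2.2.2 := by
  have key : ∀ x : ℝ, 0 ≤ x → ∃ n : ℕ, ⌊x⌋ = n ∧ (n : ℝ) ≤ x ∧ x < n + 1 := by
    intro x hx
    refine ⟨⌊x⌋₊, ?_, Nat.floor_le hx, Nat.lt_floor_add_one x⟩
    exact (Int.natCast_floor_eq_floor hx).symm
  obtain ⟨m1, e1, a1, b1⟩ := key (s + t) (by linarith)
  obtain ⟨m2, e2, a2, b2⟩ := key (s + 2 * t) (by linarith)
  obtain ⟨m3, e3, a3, b3⟩ := key (s + 3 * t) (by linarith)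
  obtain ⟨m4, e4, a4, b4⟩ := key (s + 4 * t) (by linarith)
  refine ⟨(m1, m2, m3, m4), ?_, e1, e2, e3, e4⟩
  have c1 : m1 ≤ 1 := by
    have : (m1 : ℝ) < 2 := by linarith
    have : m1 < 2 := by exact_mod_cast this
    omega
  have c2 : m2 ≤ 2 := by
    have : (m2 : ℝ) < 3 := by linarith
    have : m2 < 3 := by exact_mod_cast this
    omega
  have c3 : m3 ≤ 3 := by
    have : (m3 : ℝ) < 4 := by linarith
    have : m3 < 4 := by exact_mod_cast this
    omega
  have c4 : m4 ≤ 4 := by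
    have : (m4 : ℝ) < 5 := by linarith
    have : m4 < 5 := by exact_mod_cast this
    omega
  clear e1 e2 e3 e4
  interval_cases m1 <;> interval_cases m2 <;> interval_cases m3 <;> interval_cases m4 <;>
    first
      | (exfalso; push_cast at *; linarith)
      | decide

/-- the cell of an integer -/
noncomputable def cell (x : ℤ) : ℤ := ⌊12 * √2 * x⌋

/-- the colouring -/
noncomputable def col (x : ℤ) : Bool := tab (x % 5).toNat (cell x % 12).toNat

theorem col_eq (x : ℤ) (r c : ℕ) (hr : x % 5 = r) (hc : cell x % 12 = c) : col x = tab r c := by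
  unfold col
  rw [hr, hc]
  rfl

/-- no five terms of one colour for the differences `1, 4` modulo `5` -/
theorem no_five (d : ℕ) (hd : d % 5 = 1 ∨ d % 5 = 4) (b : Bool) : ¬ HasAP col b d 5 := by
  rintro ⟨a, ha⟩
  set u : ℝ := 12 * √2 * a with hu
  set v : ℝ := 12 * √2 * d with hv
  obtain ⟨m, hm, h1, h2, h3, h4⟩ := floors (Int.fract u) (Int.fract v) (Int.fract_nonneg _)
    (Int.fract_lt_one _) (Int.fract_nonneg _) (Int.fract_lt_one _)
  set U : ℕ := (⌊u⌋ % 12).toNat with hU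
  set V : ℕ := (⌊v⌋ % 12).toNat with hV
  set r : ℕ := (a % 5).toNat with hr
  have hU' : ((U : ℕ) : ℤ) = ⌊u⌋ % 12 := by omega
  have hV' : ((V : ℕ) : ℤ) = ⌊v⌋ % 12 := by omega
  have hr' : ((r : ℕ) : ℤ) = a % 5 := by omega
  have hcell : ∀ (j : ℕ) (w : ℕ), ⌊Int.fract u + j * Int.fract v⌋ = w →
      cell (a + j * d) = ⌊u⌋ + j * ⌊v⌋ + w := by
    intro j w hw
    rw [← hw]
    unfold cell
    have : 12 * √2 * ((a + j * d : ℤ) : ℝ) = ((⌊u⌋ + j * ⌊v⌋ : ℤ) : ℝ) +
        (Int.fract u + j * Int.fract v) := by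
      simp only [Int.fract]
      push_cast
      rw [hu, hv]
      ring
    rw [this, Int.floor_intCast_add]
  have key : ∀ (j w : ℕ), ⌊Int.fract u + j * Int.fract v⌋ = w →
      col (a + j * d) = tab ((r + j * (d % 5)) % 5) ((U + j * V + w) % 12) := by
    intro j w hw
    refine col_eq _ _ _ ?_ ?_
    · push_cast
      rw [hr']
      exact Int.ModEq.add (Int.mod_modEq a 5).symm
        ((Int.ModEq.refl (j : ℤ)).mul (Int.mod_modEq (d : ℤ) 5).symm)
    · rw [hcell j w hw]
      push_cast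
      rw [hU', hV']
      have e1 := Int.emod_add_mul_ediv ⌊u⌋ 12
      have e2 := Int.emod_add_mul_ediv ⌊v⌋ 12
      have e3 : ⌊u⌋ + j * ⌊v⌋ + w = (⌊u⌋ % 12 + j * (⌊v⌋ % 12) + w) +
          12 * (⌊u⌋ / 12 + j * (⌊v⌋ / 12)) := by
        linear_combination -e1 - (j : ℤ) * e2
      rw [e3, Int.add_mul_emod_self_left]
  have g := good_of (d % 5) r U V m hd (by omega) (by omega) (by omega) hm
  have k0 := key 0 0 (by
    simp only [Nat.cast_zero, zero_mul, add_zero]
    exact Int.floor_fract u)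
  have k1 := key 1 m.1 (by simpa using h1)
  have k2 := key 2 m.2.1 (by exact_mod_cast h2)
  have k3 := key 3 m.2.2.1 (by exact_mod_cast h3)
  have k4 := key 4 m.2.2.2 (by exact_mod_cast h4)
  rw [ha 0 (by norm_num)] at k0
  rw [ha 1 (by norm_num)] at k1
  rw [ha 2 (by norm_num)] at k2
  rw [ha 3 (by norm_num)] at k3
  rw [ha 4 (by norm_num)] at k4
  have hr5 : r < 5 := by omega
  simp only [zero_mul, add_zero, one_mul, Nat.mod_eq_of_lt hr5] at k0 k1
  unfold good at g
  simp only [← k0, ← k1, ← k2, ← k3, ← k4] at g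
  simp at g

/-- multiples of a small step come close to every target, quickly -/
theorem exists_step (δ η y t : ℝ) (hδ : 0 < |δ|) (hδη : |δ| < η) :
    ∃ i : ℕ, i * |δ| ≤ 1 ∧ ∃ m : ℤ, |y + i * δ - t - m| < η := by
  have key : ∀ δ y t : ℝ, 0 < δ → δ < η → ∃ i : ℕ, i * δ ≤ 1 ∧ ∃ m : ℤ, |y + i * δ - t - m| < η := by
    intro δ y t h0 h1
    have hM := Int.le_ceil (y - t)
    have hM' := Int.ceil_lt_add_one (y - t)
    have hpos : 0 ≤ (t + ⌈y - t⌉ - y) / δ := div_nonneg (by linarith) h0.le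
    refine ⟨⌊(t + ⌈y - t⌉ - y) / δ⌋₊, ?_, ⌈y - t⌉, ?_⟩
    · have a1 := Nat.floor_le hpos
      rw [le_div_iff₀ h0] at a1
      linarith
    · have a1 := Nat.floor_le hpos
      have a2 := Nat.lt_floor_add_one ((t + ⌈y - t⌉ - y) / δ)
      rw [le_div_iff₀ h0] at a1
      rw [div_lt_iff₀ h0] at a2
      rw [abs_lt]
      constructor <;> nlinarith
  rcases lt_or_ge 0 δ with h | h
  · rw [abs_of_pos h] at hδη ⊢
    exact key δ y t h hδη
  · have h' : δ < 0 := lt_of_le_of_ne h (abs_pos.1 hδ)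
    rw [abs_of_neg h'] at hδη ⊢
    obtain ⟨i, hi, m, hm⟩ := key (-δ) (-y) (-t) (by linarith) hδη
    refine ⟨i, hi, -m, ?_⟩
    rw [← abs_neg]
    convert hm using 2
    push_cast
    ring

/-- `√2` is badly approximable -/
theorem bad (q : ℕ) (hq : 1 ≤ q) (j : ℤ) (hj : |q * √2 - j| ≤ 1 / 25) :
    1 / (4 * q) ≤ |q * √2 - (j : ℝ)| := by
  have hq' : (1 : ℝ) ≤ q := by exact_mod_cast hq
  have h2 : √2 ^ 2 = 2 := Real.sq_sqrt (by norm_num)
  have h3 : √2 ≤ 1.4143 := by
    rw [Real.sqrt_le_left (by norm_num)]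
    norm_num
  have h1 : (1 : ℝ) ≤ |q * √2 - j| * |q * √2 + j| := by
    rw [← abs_mul]
    have e : (q * √2 - j) * (q * √2 + j) = ((2 * q ^ 2 - j ^ 2 : ℤ) : ℝ) := by
      push_cast
      linear_combination (q : ℝ) ^ 2 * h2
    rw [e]
    have : (1 : ℤ) ≤ |2 * (q : ℤ) ^ 2 - j ^ 2| := by
      refine Int.one_le_abs fun h0 => ?_
      have hirr := irrational_sqrt_two
      rw [irrational_iff_ne_rational] at hirr
      apply hirr |j| q
      · exact_mod_cast (by omega : q ≠ 0)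
      · have e1 : (2 : ℝ) * q ^ 2 = j ^ 2 := by
          have : (2 : ℤ) * q ^ 2 = j ^ 2 := by linarith
          exact_mod_cast this
        rw [eq_div_iff (by positivity)]
        have e2 : (√2 * q) ^ 2 = ((|j| : ℤ) : ℝ) ^ 2 := by
          rw [mul_pow, h2, e1]
          push_cast
          rw [sq_abs]
        have e3 : (0 : ℝ) ≤ √2 * q := by positivity
        have e4 : (0 : ℝ) ≤ ((|j| : ℤ) : ℝ) := by exact_mod_cast abs_nonneg j
        push_cast at *
        exact (pow_left_inj₀ e3 e4 (by norm_num)).1 e2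
    exact_mod_cast this
  have h4 : |q * √2 + (j : ℝ)| ≤ 4 * q := by
    rw [abs_le] at hj ⊢
    constructor <;> nlinarith [Real.sqrt_nonneg 2]
  rw [div_le_iff₀ (by positivity)]
  calc (1 : ℝ) ≤ |q * √2 - j| * |q * √2 + j| := h1
    _ ≤ |q * √2 - j| * (4 * q) := mul_le_mul_of_nonneg_left h4 (abs_nonneg _)

/-- no long progression of one colour -/
theorem no_long (d : ℕ) (hd : 1 ≤ d) (b : Bool) : ¬ HasAP col b d (60000 * d) := by
  rintro ⟨a, ha⟩
  obtain ⟨j, k, hk0, hk24, hk⟩ := Real.exists_int_int_abs_mul_sub_le (5 * d * √2)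
    (show 0 < 24 by norm_num)
  obtain ⟨K, rfl⟩ : ∃ K : ℕ, k = K := ⟨k.toNat, by omega⟩
  have hK0 : 1 ≤ K := by omega
  have hK24 : K ≤ 24 := by omega
  set δ : ℝ := K * (5 * d * √2) - j with hδ
  have hδ1 : |δ| ≤ 1 / 25 := by
    have : ((24 : ℕ) : ℝ) + 1 = 25 := by norm_num
    rw [this, Int.cast_natCast] at hk
    exact hk
  have hqe : ((5 * K * d : ℕ) : ℝ) * √2 - j = δ := by
    rw [hδ]; push_cast; ring
  have hbad := bad (5 * K * d) (by nlinarith [Nat.mul_le_mul hK0 hd]) j (by rw [hqe]; exact hδ1)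
  rw [hqe] at hbad
  have hd' : (1 : ℝ) ≤ d := by exact_mod_cast hd
  have hK' : (1 : ℝ) ≤ K := by exact_mod_cast hK0
  have hK'' : (K : ℝ) ≤ 24 := by exact_mod_cast hK24
  have hδ0 : 0 < |δ| := by
    refine lt_of_lt_of_le ?_ hbad
    have : (0 : ℝ) < ((5 * K * d : ℕ) : ℝ) := by
      push_cast
      positivity
    positivity
  set r : ℕ := (a % 5).toNat with hr
  have hr' : ((r : ℕ) : ℤ) = a % 5 := by omega
  obtain ⟨c, hc, hcb⟩ := both r b
  obtain ⟨i, hi, m, hm⟩ := exists_step δ (1 / 24) (√2 * a) ((c + 1 / 2) / 12) hδ0 (by linarith)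
  -- the index
  have hidx : i * (5 * K) < 60000 * d := by
    have h1 : (i : ℝ) ≤ 4 * (5 * K * d) := by
      have h2 : (i : ℝ) * (1 / (4 * (5 * K * d : ℕ))) ≤ 1 :=
        le_trans (mul_le_mul_of_nonneg_left hbad (Nat.cast_nonneg i)) hi
      rw [mul_one_div, div_le_one (by push_cast; positivity)] at h2
      push_cast at h2
      linarith
    have h1' : i ≤ 4 * (5 * K * d) := by exact_mod_cast h1
    calc i * (5 * K) ≤ 4 * (5 * K * d) * (5 * K) := Nat.mul_le_mul_right _ h1'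
      _ = 100 * (K * K) * d := by ring
      _ ≤ 100 * (24 * 24) * d :=
        Nat.mul_le_mul_right _ (Nat.mul_le_mul_left _ (Nat.mul_le_mul hK24 hK24))
      _ < 60000 * d := by omega
  have h0 := ha _ hidx
  apply hcb
  rw [← h0]
  symm
  refine col_eq _ _ _ ?_ ?_
  · rw [hr']
    push_cast
    have : a + (i : ℤ) * (5 * K) * d = a + 5 * (i * K * d) := by ring
    rw [this, Int.add_mul_emod_self_left]
  · have : cell (a + ((i * (5 * K) : ℕ) : ℤ) * d) = c + 12 * (m + i * j) := by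
      unfold cell
      rw [Int.floor_eq_iff]
      have e : 12 * √2 * ((a + ((i * (5 * K) : ℕ) : ℤ) * d : ℤ) : ℝ) =
          12 * (√2 * a + i * δ - (c + 1 / 2) / 12 - m) + (c + 1 / 2) + 12 * (m + i * j) := by
        rw [hδ]
        push_cast
        ring
      rw [e]
      rw [abs_lt] at hm
      push_cast
      constructor <;> linarith [hm.1, hm.2]
    rw [this, Int.add_mul_emod_self_left]
    exact Int.emod_eq_of_lt (by omega) (by omega)

/-- The function equal to `5` on the differences `1, 4` modulo `5` and to `60000 d` elsewhere is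
not admissible. -/
theorem result : ¬ Admissible (fun d => if d % 5 = 1 ∨ d % 5 = 4 then 5 else 60000 * d) := by
  intro h
  obtain ⟨b, hb⟩ := h col
  refine hb ?_
  convert Set.finite_empty
  rw [Set.eq_empty_iff_forall_notMem]
  rintro d ⟨hd1, hd⟩
  by_cases h5 : d % 5 = 1 ∨ d % 5 = 4
  · simp only [h5, if_true] at hd
    exact no_five d h5 b hd
  · simp only [h5, if_false] at hd
    exact no_long d hd1 b hd

end Pool.Agent.Results.MP_61dde8_co.FiveTerms
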