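import Mathlib
import Pool.Agent.Results.MP_61dde8_co.ThreeOnProgressions

/-!
# The threshold for differences with large rotation number

For irrational `α` the bound `f d ≤ 3` for all `d` with `‖α d‖ ≥ c` makes `f` admissible, whatever
its other values, exactly when `c < 1 / 4`.
-/

namespace Pool.Agent.Results.MP_61dde8_co.RotationThreshold

/-- The colouring `C` has a progression of colour `b`, difference `d` and `k` terms. -/
def HasAP (C : ℤ → Bool) (b : Bool) (d k : ℕ) : Prop :=
  ∃ a : ℤ, ∀ i < k, C (a + i * d) = b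

/-- The admissible functions of the problem. -/
def Admissible (f : ℕ → ℕ) : Prop :=
  ∀ C : ℤ → Bool, ∃ b : Bool, {d : ℕ | 1 ≤ d ∧ HasAP C b d (f d)}.Infinite

/-- Distance to the nearest integer. -/
noncomputable def distInt (x : ℝ) : ℝ := |x - round x|

theorem distInt_le (x : ℝ) (n : ℤ) : distInt x ≤ |x - n| := round_le x n

theorem distInt_pos {x : ℝ} (hx : ∀ n : ℤ, x ≠ n) : 0 < distInt x := by
  unfold distInt
  exact abs_pos.2 (sub_ne_zero.2 (hx _))

/-- the half circle colouring -/
noncomputable def col (α : ℝ) : ℤ → Bool := fun x => decide (Int.fract (α * x) < 1 / 2)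

/-- two points of the same half circle differ by less than one half -/
theorem same_half {y z : ℝ} (h : decide (Int.fract y < 1 / 2) = decide (Int.fract z < 1 / 2)) :
    |Int.fract z - Int.fract y| < 1 / 2 := by
  have h' : (Int.fract y < 1 / 2) ↔ (Int.fract z < 1 / 2) := by simpa using h
  have a1 := Int.fract_nonneg y
  have a2 := Int.fract_lt_one y
  have b1 := Int.fract_nonneg z
  have b2 := Int.fract_lt_one z
  rw [abs_lt]
  by_cases hy : Int.fract y < 1 / 2
  · have hz := h'.1 hy
    constructor <;> linarith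
  · have hz : ¬ Int.fract z < 1 / 2 := fun hz => hy (h'.2 hz)
    push Not at hy hz
    constructor <;> linarith

/-- A monochromatic progression of the half circle colouring is short. -/
theorem mono_short (α : ℝ) (d n : ℕ) (b : Bool) (h : HasAP (col α) b d (n + 1)) :
    n * distInt (α * d) < 1 / 2 := by
  obtain ⟨a, ha⟩ := h
  set y : ℕ → ℝ := fun i => Int.fract (α * ((a + i * d : ℤ) : ℝ)) with hy
  -- each step is the same signed step `θ`
  set θ : ℝ := α * d - round (α * d) with hθ
  have hstep : ∀ i < n, y (i + 1) - y i = θ ∧ |θ| < 1 / 2 := by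
    intro i hi
    have h1 : |y (i + 1) - y i| < 1 / 2 := by
      apply same_half
      have e0 := ha i (by omega)
      have e1 := ha (i + 1) (by omega)
      unfold col at e0 e1
      rw [e0, e1]
    have h2 : ∃ m : ℤ, y (i + 1) - y i = α * d - m := by
      refine ⟨⌊α * ((a + (i + 1 : ℕ) * d : ℤ) : ℝ)⌋ - ⌊α * ((a + i * d : ℤ) : ℝ)⌋, ?_⟩
      simp only [hy, Int.fract]
      push_cast
      ring
    obtain ⟨m, hm⟩ := h2
    have h3 : m = round (α * d) := by
      rw [hm] at h1
      symm
      rw [round_eq, Int.floor_eq_iff]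
      rw [abs_lt] at h1
      constructor <;> linarith [h1.1, h1.2]
    have h4 : y (i + 1) - y i = θ := by rw [hm, h3]
    exact ⟨h4, h4 ▸ h1⟩
  have hsum : ∀ i ≤ n, y i = y 0 + i * θ := by
    intro i
    induction i with
    | zero => intro _; simp
    | succ i ih =>
      intro hi
      have := (hstep i (by omega)).1
      rw [ih (by omega)] at this
      push_cast
      linarith
  have hn := hsum n le_rfl
  have hlast : |y n - y 0| < 1 / 2 := by
    apply same_half
    have e0 := ha 0 (by omega)
    have e1 := ha n (by omega)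
    unfold col at e0 e1
    rw [e0, e1]
  rw [hn] at hlast
  have : |(y 0 + n * θ) - y 0| = n * distInt (α * d) := by
    rw [add_sub_cancel_left, abs_mul, Nat.abs_cast]
    rfl
  rw [this] at hlast
  exact hlast

/-- multiples of a small step come close to every target -/
theorem exists_step (δ η t : ℝ) (hδ : 0 < |δ|) (hδη : |δ| < η) (hδ1 : |δ| ≤ 1) (N : ℕ) :
    ∃ i : ℕ, N ≤ i ∧ ∃ m : ℤ, |i * δ - t - m| < η := by
  have key : ∀ δ t : ℝ, 0 < δ → δ < η → δ ≤ 1 → ∃ i : ℕ, N ≤ i ∧ ∃ m : ℤ, |i * δ - t - m| < η := by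
    intro δ t h0 h1 h2
    obtain ⟨M, hM⟩ := exists_nat_ge (N + |t|)
    have ht : (N : ℝ) ≤ t + M := by
      have := neg_abs_le t
      linarith
    have hN : (N : ℝ) ≤ (t + M) / δ := by
      rw [le_div_iff₀ h0]
      have : (N : ℝ) * δ ≤ N * 1 := mul_le_mul_of_nonneg_left h2 (Nat.cast_nonneg _)
      linarith
    refine ⟨⌊(t + M) / δ⌋₊, Nat.le_floor hN, M, ?_⟩
    have a1 := Nat.floor_le (le_trans (Nat.cast_nonneg N) hN)
    have a2 := Nat.lt_floor_add_one ((t + M) / δ)
    rw [le_div_iff₀ h0] at a1
    rw [div_lt_iff₀ h0] at a2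
    rw [abs_lt]
    push_cast
    constructor <;> nlinarith
  rcases lt_or_ge 0 δ with h | h
  · rw [abs_of_pos h] at hδη hδ1
    exact key δ t h hδη hδ1
  · have h' : δ < 0 := lt_of_le_of_ne h (abs_pos.1 hδ)
    rw [abs_of_neg h'] at hδη hδ1
    obtain ⟨i, hi, m, hm⟩ := key (-δ) (-t) (by linarith) hδη hδ1
    refine ⟨i, hi, -m, ?_⟩
    rw [← abs_neg]
    convert hm using 2
    push_cast
    ring

/-- multiples of an irrational number come close to every target modulo one -/
theorem exists_multiple (α : ℝ) (hα : Irrational α) (η t : ℝ) (hη : 0 < η) (N : ℕ) :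
    ∃ n : ℕ, N ≤ n ∧ ∃ m : ℤ, |α * n - t - m| < η := by
  obtain ⟨q, hq⟩ := exists_nat_gt (1 / η)
  have hq0 : (0 : ℝ) < q + 1 := by positivity
  obtain ⟨j, k, hk0, -, hk⟩ := Real.exists_int_int_abs_mul_sub_le α (Nat.succ_pos q)
  set δ : ℝ := k * α - j with hδdef
  have hδ0 : 0 < |δ| := by
    rw [abs_pos, hδdef, sub_ne_zero]
    intro h
    have := (hα.intCast_mul (ne_of_gt hk0)).ne_int j
    exact this h
  have hq2 : 1 / ((q.succ : ℝ) + 1) < η := by
    rw [div_lt_iff₀ (by positivity)]
    rw [div_lt_iff₀ hη] at hq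
    push_cast
    nlinarith
  have hδη : |δ| < η := lt_of_le_of_lt (by push_cast at hk ⊢; exact hk) hq2
  have hδ1 : |δ| ≤ 1 := by
    refine le_trans hk ?_
    rw [div_le_one (by positivity)]
    push_cast
    linarith [Nat.cast_nonneg (α := ℝ) q]
  obtain ⟨i, hi, m, hm⟩ := exists_step δ η t hδ0 hδη hδ1 N
  refine ⟨i * k.toNat, ?_, m + i * j, ?_⟩
  · have : 1 ≤ k.toNat := by omega
    nlinarith
  · have hk' : ((k.toNat : ℕ) : ℝ) = k := by
      have : ((k.toNat : ℕ) : ℤ) = k := Int.toNat_of_nonneg hk0.le
      exact_mod_cast this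
    convert hm using 2
    push_cast
    rw [hk', hδdef]
    ring

/-- For irrational `α` and real `c`: all `f` with `f d ≤ 3` whenever the distance of `α d` to the
nearest integer is at least `c` are admissible if and only if `c < 1 / 4`. -/
theorem result (α : ℝ) (hα : Irrational α) (c : ℝ) :
    (∀ f : ℕ → ℕ, (∀ d : ℕ, c ≤ distInt (α * d) → f d ≤ 3) → Admissible f) ↔ c < 1 / 4 := by
  constructor
  · intro h
    by_contra hc
    push Not at hc
    classical
    obtain ⟨b, hb⟩ := h (fun d => if c ≤ distInt (α * d) then 3 else ⌈1 / distInt (α * d)⌉₊ + 2)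
      (by intro d hd; simp [hd]) (col α)
    refine hb ?_
    convert Set.finite_empty
    rw [Set.eq_empty_iff_forall_notMem]
    rintro d ⟨hd1, hd⟩
    have hpos : 0 < distInt (α * d) := by
      refine distInt_pos fun n => ?_
      have := (hα.mul_natCast (m := d) (by omega)).ne_int n
      exact this
    by_cases hcd : c ≤ distInt (α * d)
    · simp only [hcd, if_true] at hd
      have := mono_short α d 2 b hd
      push_cast at this
      linarith
    · simp only [hcd, if_false] at hd
      have := mono_short α d (⌈1 / distInt (α * d)⌉₊ + 1) b hd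
      have h1 := Nat.le_ceil (1 / distInt (α * d))
      rw [div_le_iff₀ hpos] at h1
      push_cast at this
      nlinarith
  · intro hc f hf
    have key : ThreeOnProgressions.Admissible f := by
      refine ThreeOnProgressions.result f fun N => ?_
      set η : ℝ := min ((1 / 4 - c) / 8) (1 / 64) with hη
      have hη0 : 0 < η := by
        rw [hη]
        refine lt_min (by linarith) (by norm_num)
      have hη1 : 8 * η ≤ 1 / 4 - c := by
        have := min_le_left ((1 / 4 - c) / 8) (1 / 64)
        rw [← hη] at this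
        linarith
      have hη2 : η ≤ 1 / 64 := min_le_right _ _
      obtain ⟨e, he, me, hme⟩ := exists_multiple α hα η (1 / 2) hη0 N
      obtain ⟨a, ha, ma, hma⟩ := exists_multiple α hα η (1 / 4) hη0 N
      have hfe : f e ≤ 3 := by
        refine hf e ?_
        unfold distInt
        set n := round (α * e)
        have h1 : (1 : ℝ) / 2 ≤ |1 / 2 + (me : ℝ) - n| := by
          have h2 : (1 : ℤ) ≤ |1 + 2 * me - 2 * n| := by
            refine Int.one_le_abs ?_
            omega
          have h3 : (1 : ℝ) ≤ |1 + 2 * (me : ℝ) - 2 * n| := by exact_mod_cast h2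
          have h4 : (1 + 2 * (me : ℝ) - 2 * n) = 2 * (1 / 2 + (me : ℝ) - n) := by ring
          rw [h4, abs_mul, abs_of_pos (by norm_num : (0 : ℝ) < 2)] at h3
          linarith
        have h5 : |1 / 2 + (me : ℝ) - n| ≤ |α * e - n| + |α * e - 1 / 2 - me| := by
          have : 1 / 2 + (me : ℝ) - n = (α * e - n) - (α * e - 1 / 2 - me) := by ring
          rw [this]
          exact abs_sub _ _
        linarith
      refine ⟨e, a, he, ha, fun i hi => hf _ ?_⟩
      have hi4 : (i : ℝ) ≤ 4 := by
        have : i ≤ 4 := by omega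
        exact_mod_cast this
      unfold distInt
      push_cast
      set n := round (α * ((a : ℝ) + i * e))
      have h1 : (1 : ℝ) / 4 ≤ |1 / 4 + (ma : ℝ) + i * (1 / 2 + me) - n| := by
        have h2 : (1 : ℤ) ≤ |1 + 4 * ma + i * (2 + 4 * me) - 4 * n| := by
          refine Int.one_le_abs ?_
          intro h
          have : (2 : ℤ) ∣ 1 := by
            refine ⟨-(2 * ma + i * (1 + 2 * me) - 2 * n), ?_⟩
            linarith
          omega
        have h3 : (1 : ℝ) ≤ |1 + 4 * (ma : ℝ) + i * (2 + 4 * me) - 4 * n| := by exact_mod_cast h2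
        have h4 : (1 + 4 * (ma : ℝ) + i * (2 + 4 * me) - 4 * n) =
            4 * (1 / 4 + (ma : ℝ) + i * (1 / 2 + me) - n) := by ring
        rw [h4, abs_mul, abs_of_pos (by norm_num : (0 : ℝ) < 4)] at h3
        linarith
      have h5 : |1 / 4 + (ma : ℝ) + i * (1 / 2 + me) - n| ≤ |α * ((a : ℝ) + i * e) - n| +
          |(α * a - 1 / 4 - ma) + i * (α * e - 1 / 2 - me)| := by
        have : 1 / 4 + (ma : ℝ) + i * (1 / 2 + me) - n = (α * ((a : ℝ) + i * e) - n) -
            ((α * a - 1 / 4 - ma) + i * (α * e - 1 / 2 - me)) := by ring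
        rw [this]
        exact abs_sub _ _
      have h6 : |(α * a - 1 / 4 - ma) + i * (α * e - 1 / 2 - me)| ≤ η + 4 * η := by
        refine le_trans (abs_add_le _ _) ?_
        rw [abs_mul, Nat.abs_cast]
        have : (i : ℝ) * |α * e - 1 / 2 - me| ≤ 4 * η :=
          mul_le_mul hi4 hme.le (abs_nonneg _) (by norm_num)
        linarith
      linarith
    exact key

end Pool.Agent.Results.MP_61dde8_co.RotationThreshold
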